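import Pool.Agent.X320.DS.Trace

/-! Irreducible representations which are commutative on an open normal subgroup. -/

set_option autoImplicit false
set_option linter.all false

namespace Pool.Agent.X320.IA

open Matrix Module Polynomial Pool.Agent.X320.DS

section

variable {Γ : Type*} [Group Γ] {k : Type*} [Field k] [IsAlgClosed k] {n : ℕ}

theorem eig_line {A : Module.End k (Fin n → k)} (hA : (LinearMap.charpoly A).Separable) {v w : Fin n → k} (hv : v ≠ 0)
    {a : k} (h1 : A v = a • v) (h2 : A w = a • w) : ∃ c : k, w = c • v := by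
  have h3 : finrank k (A.eigenspace a) ≤ 1 := by
    have := LinearMap.finrank_eigenspace_le A a
    exact this.trans (rootMultiplicity_le_one_of_separable hA a)
  have hv' : v ∈ A.eigenspace a := Module.End.mem_eigenspace_iff.2 h1
  have hw' : w ∈ A.eigenspace a := Module.End.mem_eigenspace_iff.2 h2
  have h4 := (finrank_le_one_iff (K := k) (V := A.eigenspace a)).1 h3
  obtain ⟨x, hx⟩ := h4
  obtain ⟨c, hc⟩ := hx ⟨v, hv'⟩
  obtain ⟨d, hd⟩ := hx ⟨w, hw'⟩
  have hc' : c • (x : Fin n → k) = v := congrArg Subtype.val hc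
  have hd' : d • (x : Fin n → k) = w := congrArg Subtype.val hd
  have hc0 : c ≠ 0 := by
    rintro rfl
    rw [zero_smul] at hc'
    exact hv hc'.symm
  refine ⟨d * c⁻¹, ?_⟩
  rw [← hc', smul_smul, mul_assoc, inv_mul_cancel₀ hc0, mul_one, hd']

/-- **Monomial representations.** -/
theorem monomial (ρ : Γ →* GL (Fin n) k) (hn : 0 < n) (hirr : ∀ W, Stable ρ W → W = ⊥ ∨ W = ⊤) {U : Subgroup Γ}
    (hU : U.Normal) (hcomm : ∀ u ∈ U, ∀ w ∈ U, ρ (u * w) = ρ (w * u)) {u₀ : Γ} (hu₀ : u₀ ∈ U)
    (hsep : (ρ u₀ : Matrix (Fin n) (Fin n) k).charpoly.Separable) :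
    ∃ H : Subgroup Γ, U ≤ H ∧ H.index = n ∧ ∃ v : Fin n → k, v ≠ 0 ∧ ∀ h ∈ H, ∃ c : k,
      (ρ h : Matrix (Fin n) (Fin n) k) *ᵥ v = c • v := by
  classical
  haveI : Nonempty (Fin n) := ⟨⟨0, hn⟩⟩
  set r := toEnd ρ with hr
  have hsep' : (LinearMap.charpoly (r u₀)).Separable := by
    have e : LinearMap.charpoly (toEnd ρ u₀) = (ρ u₀ : Matrix (Fin n) (Fin n) k).charpoly :=
      Matrix.charpoly_toLin' _
    rw [hr, e]
    exact hsep
  have hinv : ∀ g, r g⁻¹ * r g = 1 := fun g => by rw [← map_mul, inv_mul_cancel, map_one]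
  have hinv' : ∀ g, r g * r g⁻¹ = 1 := fun g => by rw [← map_mul, mul_inv_cancel, map_one]
  have hne : ∀ g {x : Fin n → k}, x ≠ 0 → r g x ≠ 0 := by
    intro g x hx h
    apply hx
    have : (r g⁻¹ * r g) x = x := by rw [hinv]; rfl
    rw [← this, Module.End.mul_apply, h, map_zero]
  have hcomm' : ∀ u ∈ U, ∀ w ∈ U, r u * r w = r w * r u := by
    intro u hu w hw
    rw [← map_mul, ← map_mul]
    show Matrix.toLin' _ = Matrix.toLin' _
    rw [hcomm u hu w hw]
  obtain ⟨a, ha⟩ := Module.End.exists_eigenvalue (r u₀)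
  obtain ⟨v, hv⟩ := ha.exists_hasEigenvector
  have hv0 : v ≠ 0 := hv.2
  have hva : r u₀ v = a • v := hv.apply_eq_smul
  have hUv : ∀ u ∈ U, ∃ c : k, r u v = c • v := by
    intro u hu
    refine eig_line hsep' hv0 hva ?_
    have h1 : (r u₀ * r u) v = (r u * r u₀) v := by rw [hcomm' _ hu₀ _ hu]
    rw [Module.End.mul_apply, Module.End.mul_apply, hva, map_smul] at h1
    exact h1
  -- the translates
  have hUg : ∀ g, ∃ c : k, r u₀ (r g v) = c • r g v := by
    intro g
    obtain ⟨c, hc⟩ := hUv (g⁻¹ * u₀ * g) (by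
      have := hU.conj_mem u₀ hu₀ g⁻¹
      rwa [inv_inv] at this)
    refine ⟨c, ?_⟩
    have e : r u₀ * r g = r g * r (g⁻¹ * u₀ * g) := by
      rw [← map_mul, ← map_mul]
      congr 1
      group
    have h1 : (r u₀ * r g) v = (r g * r (g⁻¹ * u₀ * g)) v := by rw [e]
    rw [Module.End.mul_apply, Module.End.mul_apply, hc, map_smul] at h1
    exact h1
  choose lam hlam using hUg
  let H : Subgroup Γ :=
    { carrier := {g | ∃ c : k, r g v = c • v}
      mul_mem' := by
        rintro g h ⟨c, hc⟩ ⟨d, hd⟩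
        refine ⟨d * c, ?_⟩
        rw [map_mul, Module.End.mul_apply, hd, map_smul, hc, smul_smul]
      one_mem' := ⟨1, by rw [map_one, one_smul]; rfl⟩
      inv_mem' := by
        rintro g ⟨c, hc⟩
        have hc0 : c ≠ 0 := by
          rintro rfl
          rw [zero_smul] at hc
          exact hne g hv0 hc
        refine ⟨c⁻¹, ?_⟩
        have h1 : (r g⁻¹ * r g) v = v := by rw [hinv]; rfl
        rw [Module.End.mul_apply, hc, map_smul] at h1
        rw [← h1, smul_smul, inv_mul_cancel₀ hc0, one_smul, h1] }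
  have hUH : U ≤ H := hUv
  have hHiff : ∀ g g', lam g = lam g' → g⁻¹ * g' ∈ H := by
    intro g g' h
    have h1 := hlam g'
    rw [← h] at h1
    obtain ⟨c, hc⟩ := eig_line hsep' (hne g hv0) (hlam g) h1
    refine ⟨c, ?_⟩
    rw [map_mul, Module.End.mul_apply, hc, map_smul]
    have h2 : (r g⁻¹ * r g) v = v := by rw [hinv]; rfl
    rw [Module.End.mul_apply] at h2
    rw [h2]
  have hroot : ∀ g, lam g ∈ (LinearMap.charpoly (r u₀)).roots.toFinset := by
    intro g
    rw [Multiset.mem_toFinset, mem_roots (LinearMap.charpoly_monic _).ne_zero,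
      ← Module.End.hasEigenvalue_iff_isRoot_charpoly]
    exact Module.End.hasEigenvalue_of_hasEigenvector (x := r g v)
      ⟨Module.End.mem_eigenspace_iff.2 (hlam g), hne g hv0⟩
  let φ : Γ ⧸ H → (LinearMap.charpoly (r u₀)).roots.toFinset := fun q => ⟨lam q.out, hroot q.out⟩
  have hφ : Function.Injective φ := by
    intro q q' h
    have h1 : lam q.out = lam q'.out := congrArg Subtype.val h
    have h2 := hHiff _ _ h1
    rw [← QuotientGroup.out_eq' q, ← QuotientGroup.out_eq' q', QuotientGroup.eq]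
    exact h2
  haveI : Finite (Γ ⧸ H) := Finite.of_injective φ hφ
  haveI : Fintype (Γ ⧸ H) := Fintype.ofFinite _
  have hle : Fintype.card (Γ ⧸ H) ≤ n := by
    have h1 := Fintype.card_le_of_injective φ hφ
    rw [Fintype.card_coe] at h1
    refine h1.trans ((Multiset.toFinset_card_le _).trans ?_)
    refine (card_roots' _).trans ?_
    rw [LinearMap.charpoly_natDegree, finrank_fin_fun]
  have hge : n ≤ Fintype.card (Γ ⧸ H) := by
    have hspan : Submodule.span k (Set.range fun q : Γ ⧸ H => r q.out v) = ⊤ := by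
      refine (hirr _ ?_).resolve_left ?_
      · intro g w hw
        have key : Submodule.span k (Set.range fun q : Γ ⧸ H => r q.out v) ≤
            (Submodule.span k (Set.range fun q : Γ ⧸ H => r q.out v)).comap (r g) := by
          rw [Submodule.span_le]
          rintro _ ⟨q, rfl⟩
          show r g (r q.out v) ∈ Submodule.span k (Set.range fun q : Γ ⧸ H => r q.out v)
          have h1 : (QuotientGroup.mk (g * q.out) : Γ ⧸ H).out⁻¹ * (g * q.out) ∈ H := by
            rw [← QuotientGroup.eq, QuotientGroup.out_eq']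
          obtain ⟨c, hc⟩ := h1
          have h2 : r g (r q.out v) = c • r (QuotientGroup.mk (g * q.out) : Γ ⧸ H).out v := by
            rw [← map_smul, ← hc, ← Module.End.mul_apply, ← Module.End.mul_apply, ← map_mul, ← map_mul]
            congr 2
            rw [mul_inv_cancel_left]
          rw [h2]
          exact Submodule.smul_mem _ _ (Submodule.subset_span ⟨_, rfl⟩)
        exact key hw
      · intro h
        have h1 : r (QuotientGroup.mk 1 : Γ ⧸ H).out v ∈ (⊥ : Submodule k (Fin n → k)) := by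
          rw [← h]
          exact Submodule.subset_span ⟨_, rfl⟩
        exact hne _ hv0 ((Submodule.mem_bot k).1 h1)
    have h2 := finrank_range_le_card (R := k) fun q : Γ ⧸ H => r q.out v
    rw [Set.finrank, hspan, finrank_top, finrank_fin_fun] at h2
    exact h2
  refine ⟨H, hUH, ?_, v, hv0, fun h hh => hh⟩
  rw [Subgroup.index, Nat.card_eq_fintype_card]
  exact le_antisymm hle hge

end

end Pool.Agent.X320.IA
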