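import Pool.Agent.X320.IA.Nondeg
import Pool.Agent.X320.FS.Group
import Pool.Agent.X320.KR.PFinal
import Pool.Agent.X320.KR.Final

/-! Frobenius eigenvalues whose quotients are roots of unity, for a positive proportion of the places. -/

set_option autoImplicit false
set_option linter.all false

namespace Pool.Agent.X320.IA

open MeasureTheory Topology Filter NumberField IsDedekindDomain Matrix Module Polynomial
open Pool.Agent.W401.Cheb Pool.Agent.X320.DS Pool.Agent.X320.RU Pool.Agent.X320.KR Pool.Agent.X320.FS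

section lin

variable {ℓ : ℕ} [Fact ℓ.Prime] {n : ℕ}

theorem scal_of_ss {M : Matrix (Fin n) (Fin n) (PadicAlgCl ℓ)} {N : ℕ} {t : PadicAlgCl ℓ}
    (hs : Module.End.IsSemisimple (Matrix.toLin' M)) (h : ((n : PadicAlgCl ℓ) • M ^ N - t • 1) ^ n = 0) :
    Scal (M ^ N) := by
  rcases Nat.eq_zero_or_pos n with hn0 | hn
  · subst hn0
    exact ⟨fun a => a.elim0, fun a => a.elim0⟩
  have hn' : (n : PadicAlgCl ℓ) ≠ 0 := by exact_mod_cast hn.ne'
  have h1 : Module.End.IsSemisimple (aeval (Matrix.toLin' M) (C (n : PadicAlgCl ℓ) * X ^ N - C t)) := hs.aeval _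
  have h2 : aeval (Matrix.toLin' M) (C (n : PadicAlgCl ℓ) * X ^ N - C t) =
      Matrix.toLin' ((n : PadicAlgCl ℓ) • M ^ N - t • 1) := by
    rw [aeval_toLin2]
    congr 1
    rw [map_sub, map_mul, map_pow, aeval_X, aeval_C, aeval_C, Algebra.algebraMap_eq_smul_one,
      Algebra.algebraMap_eq_smul_one, smul_mul_assoc, one_mul]
  have h3 : IsNilpotent (Matrix.toLin' ((n : PadicAlgCl ℓ) • M ^ N - t • 1)) := by
    refine ⟨n, ?_⟩
    have h4 : ∀ m : ℕ, (Matrix.toLin' ((n : PadicAlgCl ℓ) • M ^ N - t • 1)) ^ m =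
        Matrix.toLin' (((n : PadicAlgCl ℓ) • M ^ N - t • 1) ^ m) := fun m => (Matrix.toLin'_pow _ m).symm
    rw [h4, h, map_zero]
  rw [h2] at h1
  have h5 := Module.End.eq_zero_of_isNilpotent_isSemisimple h3 h1
  have h6 : (n : PadicAlgCl ℓ) • M ^ N - t • 1 = 0 := Matrix.toLin'.injective (by rw [h5, map_zero])
  have h7 : M ^ N = ((n : PadicAlgCl ℓ)⁻¹ * t) • 1 := by
    rw [mul_smul, ← sub_eq_zero.1 h6, smul_smul, inv_mul_cancel₀ hn', one_smul]
  refine comm_scal fun Y => ?_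
  rw [h7, smul_mul_assoc, mul_smul_comm, one_mul, mul_one]

theorem scal_map {k K : Type*} [Field k] [Field K] (f : k →+* K) {M : Matrix (Fin n) (Fin n) k} (h : Scal M) :
    Scal (M.map f) := by
  refine ⟨fun a b hab => ?_, fun a b => ?_⟩
  · rw [Matrix.map_apply, h.1 a b hab, map_zero]
  · rw [Matrix.map_apply, Matrix.map_apply, h.2 a b]

end lin

section galois

variable {K : Type} [Field K] [NumberField K] {ℓ : ℕ} [Fact ℓ.Prime] {n : ℕ}

/-- **Potentially abelian representations.** -/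
theorem potentially_abelian (ρ : GK K →* GL (Fin n) (PadicAlgCl ℓ)) (hρ : Continuous ρ) (hss : Semisimple ρ)
    {δ : ℝ} (hδ : 0 < δ)
    (Good : HeightOneSpectrum (𝓞 K) → Prop) (hG : ∃ᶠ M in atTop, δ ≤ dens Good M)
    (hX : ∀ v, Good v → ∀ σ, IsFrob v σ → ∀ a b : PadicAlgCl ℓ,
      (ρ σ : Matrix (Fin n) (Fin n) (PadicAlgCl ℓ)).charpoly.IsRoot a →
      (ρ σ : Matrix (Fin n) (Fin n) (PadicAlgCl ℓ)).charpoly.IsRoot b → ∃ m : ℕ, 0 < m ∧ a ^ m = b ^ m) :
    ∃ U : Subgroup (GK K), U.Normal ∧ IsOpen (U : Set (GK K)) ∧ ∀ u ∈ U, ∀ w ∈ U, ρ (u * w) = ρ (w * u) := by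
  classical
  letI : MeasurableSpace (GK K) := borel _
  haveI : BorelSpace (GK K) := ⟨rfl⟩
  set μ : Measure (GK K) := Measure.haarMeasure (⊤ : TopologicalSpace.PositiveCompacts (GK K)) with hμ
  haveI : IsProbabilityMeasure μ := ⟨by
    have := Measure.haarMeasure_self (K₀ := (⊤ : TopologicalSpace.PositiveCompacts (GK K)))
    rw [hμ]
    rwa [TopologicalSpace.PositiveCompacts.coe_top] at this⟩
  obtain ⟨N, hN, hexp⟩ := exists_exp ρ hρ
  set Z : Set (GK K) := {g | ((n : PadicAlgCl ℓ) • (ρ g : Matrix (Fin n) (Fin n) (PadicAlgCl ℓ)) ^ N -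
    ((ρ g : Matrix (Fin n) (Fin n) (PadicAlgCl ℓ)) ^ N).trace • 1) ^ n = 0} with hZ
  have hZc : IsClosed Z := by
    have h1 : Continuous fun g : GK K => (ρ g : Matrix (Fin n) (Fin n) (PadicAlgCl ℓ)) :=
      Units.continuous_val.comp hρ
    have h2 : Continuous fun g : GK K => ((ρ g : Matrix (Fin n) (Fin n) (PadicAlgCl ℓ)) ^ N).trace :=
      (h1.pow N).matrix_trace
    have h3 : Continuous fun g : GK K => (n : PadicAlgCl ℓ) • (ρ g : Matrix (Fin n) (Fin n) (PadicAlgCl ℓ)) ^ N -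
        ((ρ g : Matrix (Fin n) (Fin n) (PadicAlgCl ℓ)) ^ N).trace • (1 : Matrix (Fin n) (Fin n) (PadicAlgCl ℓ)) :=
      (Continuous.const_smul (h1.pow N) (n : PadicAlgCl ℓ)).sub (h2.smul continuous_const)
    exact isClosed_eq (h3.pow n) continuous_const
  have h1 := measure_ge_freq μ Good hG Z hZc (fun v hv σ hσ => by
    refine eig_to fun a b ha hb => ?_
    obtain ⟨m, hm, hab⟩ := hX v hv σ hσ _ _ (root_inv ρ σ ha) (root_inv ρ σ hb)
    refine hexp σ⁻¹ a b ha hb ⟨m, hm, ?_⟩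
    rw [inv_pow, inv_pow] at hab
    exact inv_injective hab)
  have hZ0 : μ Z ≠ 0 := by
    intro h
    rw [h] at h1
    have := ENNReal.ofReal_eq_zero.1 (le_antisymm h1 bot_le)
    linarith
  -- the representation over the complete field
  set f : PadicAlgCl ℓ →+* ℂ_[ℓ] := algebraMap (PadicAlgCl ℓ) ℂ_[ℓ] with hf
  set r' : GK K →* GL (Fin n) ℂ_[ℓ] := (Matrix.GeneralLinearGroup.map f).comp ρ with hr'
  have hval : ∀ x, (r' x : Matrix (Fin n) (Fin n) ℂ_[ℓ]) = (ρ x : Matrix (Fin n) (Fin n) (PadicAlgCl ℓ)).map f :=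
    fun x => rfl
  have hfc : Continuous f := UniformSpace.Completion.continuous_coe _
  have hr'c : Continuous r' := by
    have h1 : Continuous (Units.map (f.mapMatrix (m := Fin n)).toMonoidHom :
        GL (Fin n) (PadicAlgCl ℓ) → GL (Fin n) ℂ_[ℓ]) := by
      refine Continuous.units_map _ ?_
      show Continuous fun M : Matrix (Fin n) (Fin n) (PadicAlgCl ℓ) => M.map f
      exact continuous_id.matrix_map hfc
    exact h1.comp hρ
  have hr's : Semisimple r' := ss_map f hss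
  obtain ⟨B, hBc, hB0, hB⟩ := group_ss (p := ℓ) r' μ hr'c hr's
  have hsub : Z \ B ⊆ {x | Scal ((r' x : Matrix (Fin n) (Fin n) ℂ_[ℓ]) ^ N)} := by
    rintro x ⟨hxZ, hxB⟩
    have h2 : Module.End.IsSemisimple (Matrix.toLin' (ρ x : Matrix (Fin n) (Fin n) (PadicAlgCl ℓ))) := by
      refine ss_descend f ?_
      rw [← hval]
      exact hB x hxB
    have h3 := scal_map f (scal_of_ss h2 hxZ)
    show Scal ((r' x : Matrix (Fin n) (Fin n) ℂ_[ℓ]) ^ N)
    rw [hval]
    have h4 : ((ρ x : Matrix (Fin n) (Fin n) (PadicAlgCl ℓ)).map f) ^ N =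
        ((ρ x : Matrix (Fin n) (Fin n) (PadicAlgCl ℓ)) ^ N).map f := by
      have := (map_pow (f.mapMatrix (m := Fin n)) (ρ x : Matrix (Fin n) (Fin n) (PadicAlgCl ℓ)) N).symm
      exact this
    rw [h4]
    exact h3
  have hpos : μ {x | Scal ((r' x : Matrix (Fin n) (Fin n) ℂ_[ℓ]) ^ N)} ≠ 0 := by
    intro h
    have h5 := measure_mono_null hsub h
    rw [measure_diff_null hB0] at h5
    exact hZ0 h5
  obtain ⟨U, hUn, hUo, hU⟩ := group_main (p := ℓ) r' μ hr'c hr's hN hpos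
  refine ⟨U, hUn, hUo, fun u hu w hw => ?_⟩
  have h6 := hU u hu w hw
  apply Units.ext
  have h7 : (ρ (u * w) : Matrix (Fin n) (Fin n) (PadicAlgCl ℓ)).map f =
      (ρ (w * u) : Matrix (Fin n) (Fin n) (PadicAlgCl ℓ)).map f := by
    rw [← hval, ← hval, h6]
  exact Matrix.map_injective f.injective h7

end galois

end Pool.Agent.X320.IA
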