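import Pool.Agent.X320.FS.Base

/-! A nondegenerate trace form implies semisimplicity. -/

set_option autoImplicit false
set_option linter.all false

namespace Pool.Agent.X320.IA

open Module Pool.Agent.X320.DS Pool.Agent.X320.FS

section

variable {Γ : Type*} [Group Γ] {k : Type*} [Field k] {n : ℕ}

theorem ss_of_nondeg {ρ : Γ →* GL (Fin n) k}
    (hA : ∀ z ∈ alg ρ, (∀ a ∈ alg ρ, LinearMap.trace k (Fin n → k) (a * z) = 0) → z = 0) : Semisimple ρ := by
  haveI : IsArtinianRing (alg ρ) := IsArtinianRing.of_finite k (alg ρ)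
  have hss : IsSemisimpleRing (alg ρ) := by
    rw [IsArtinianRing.isSemisimpleRing_iff_jacobson, eq_bot_iff]
    intro z hz
    obtain ⟨m, hm⟩ : IsNilpotent (Ring.jacobson (alg ρ)) := IsSemiprimaryRing.isNilpotent
    have h1 : z.1 = 0 := by
      refine hA z.1 z.2 fun a ha => ?_
      have h2 : (⟨a, ha⟩ : alg ρ) * z ∈ Ring.jacobson (alg ρ) := Ideal.mul_mem_left _ _ hz
      have h3 : ((⟨a, ha⟩ : alg ρ) * z) ^ m = 0 := by
        have h4 := Ideal.pow_mem_pow h2 m
        rw [hm] at h4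
        exact h4
      have h5 : (a * z.1) ^ m = 0 := congrArg Subtype.val h3
      exact (LinearMap.isNilpotent_trace_of_isNilpotent ⟨m, h5⟩).eq_zero
    exact Subtype.ext h1
  haveI hsm : IsSemisimpleModule (alg ρ) (Fin n → k) := inferInstance
  haveI hcl := (isSemisimpleModule_iff (alg ρ) (Fin n → k)).1 hsm
  intro W hW
  let W' : Submodule (alg ρ) (Fin n → k) :=
    { carrier := W
      add_mem' := fun h1 h2 => W.add_mem h1 h2
      zero_mem' := W.zero_mem
      smul_mem' := fun a w hw => stable_alg hW a.2 w hw }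
  obtain ⟨Y, hY⟩ := exists_isCompl W'
  refine ⟨Y.restrictScalars k, ?_, ?_, ?_⟩
  · intro g w hw
    have h := Y.smul_mem ⟨toEnd ρ g, Algebra.subset_adjoin ⟨g, rfl⟩⟩ hw
    rw [← toEnd_apply]
    exact h
  · rw [Submodule.disjoint_def]
    intro x hx hx'
    exact (Submodule.disjoint_def.1 hY.disjoint) x hx hx'
  · rw [codisjoint_iff, eq_top_iff]
    intro x _
    have hx : x ∈ W' ⊔ Y := by rw [hY.sup_eq_top]; trivial
    obtain ⟨y, hy, z, hz, rfl⟩ := Submodule.mem_sup.1 hx
    exact Submodule.mem_sup.2 ⟨y, hy, z, hz, rfl⟩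

/-- base change -/
theorem ss_map [CharZero k] {K : Type*} [Field K] (f : k →+* K) {ρ : Γ →* GL (Fin n) k} (h : Semisimple ρ) :
    Semisimple ((Matrix.GeneralLinearGroup.map f).comp ρ) :=
  ss_of_nondeg (nondeg_of_rigid ((rigid_of_ss h).map f))

end

end Pool.Agent.X320.IA
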